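import Pool.Agent.N440.LB.Stm

set_option autoImplicit false

/-!
# LB/SY: integrals of functions symmetric under the reflection `θ ↦ 2 τ - θ`
-/

namespace Pool.Agent.N723.LB.SY

open Complex Set MeasureTheory Filter Topology Pool.Agent.N440.LB

open scoped Real ComplexConjugate

/-- the integral of an odd periodic function vanishes -/
theorem odd_zero (b : ℝ → ℝ) (τ : ℝ) (hper : Function.Periodic b (2 * π))
    (hodd : ∀ᵐ θ : ℝ, b (2 * τ - θ) = - b θ) : ∫ θ in (0 : ℝ)..(2 * π), b θ = 0 := by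
  have h1 : ∫ θ in (0 : ℝ)..(2 * π), b (2 * τ - θ) = ∫ θ in (0 : ℝ)..(2 * π), b θ := by
    rw [intervalIntegral.integral_comp_sub_left b (2 * τ)]
    have h2 := hper.intervalIntegral_add_eq (2 * τ - 2 * π) 0
    rw [zero_add] at h2
    rw [← h2]
    congr 1
    ring
  have h3 : ∫ θ in (0 : ℝ)..(2 * π), b (2 * τ - θ) = ∫ θ in (0 : ℝ)..(2 * π), - b θ := by
    apply intervalIntegral.integral_congr_ae
    filter_upwards [hodd] with θ hθ _
    exact hθ
  rw [intervalIntegral.integral_neg] at h3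
  linarith

theorem intv (f : ℝ → ℝ) (hf : Measurable f) (C : ℝ) (hC : ∀ θ, |f θ| ≤ C) :
    IntervalIntegrable f volume 0 (2 * π) := by
  rw [intervalIntegrable_iff]
  refine Measure.integrableOn_of_bounded (M := C) (measure_Ioc_lt_top.ne) hf.aestronglyMeasurable ?_
  exact ae_of_all _ fun θ => by
    rw [Real.norm_eq_abs]
    exact hC θ

theorem bd (x y z C : ℝ) (hx : |x| ≤ 1) (hy : |y| ≤ 1) (hz : |z| ≤ C) : |x * (y * z)| ≤ C := by
  have h0 : 0 ≤ C := (abs_nonneg z).trans hz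
  rw [abs_mul, abs_mul]
  calc |x| * (|y| * |z|) ≤ 1 * (1 * C) := by gcongr
    _ = C := by ring

/-- SY -/
theorem t_SY : S_SY := by
  intro a C τ k ha hC hper hsym
  have hcos : ∀ θ : ℝ, Real.cos (k * (θ + 2 * π - τ)) = Real.cos (k * (θ - τ)) := by
    intro θ
    have : (k : ℝ) * (θ + 2 * π - τ) = k * (θ - τ) + k * (2 * π) := by ring
    rw [this, Real.cos_add_nat_mul_two_pi]
  have hA : (∫ θ in (0 : ℝ)..(2 * π), Real.cos (k * (θ - τ)) * (Real.sin (τ - θ) * a θ)) = 0 := by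
    refine odd_zero (fun θ => Real.cos (k * (θ - τ)) * (Real.sin (τ - θ) * a θ)) τ ?_ ?_
    · intro θ
      have h2 : τ - (θ + 2 * π) = (τ - θ) - 2 * π := by ring
      simp only
      rw [hcos, hper, h2, Real.sin_sub_two_pi]
    · filter_upwards [hsym] with θ hθ
      have h1 : (k : ℝ) * (2 * τ - θ - τ) = -(k * (θ - τ)) := by ring
      have h2 : τ - (2 * τ - θ) = -(τ - θ) := by ring
      rw [hθ, h1, h2, Real.cos_neg, Real.sin_neg]
      ring
  refine ⟨hA, fun Ψ => ?_⟩
  set W : ℂ := exp (-((k * τ : ℝ) : ℂ) * I) * Ψ with hW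
  have hpt : ∀ θ : ℝ, (exp (-((k * θ : ℝ) : ℂ) * I) * Ψ).im =
      Real.cos (k * (θ - τ)) * W.im - Real.sin (k * (θ - τ)) * W.re := by
    intro θ
    have h1 : exp (-((k * θ : ℝ) : ℂ) * I) * Ψ = exp (((-(k * (θ - τ)) : ℝ) : ℂ) * I) * W := by
      rw [hW, ← mul_assoc, ← Complex.exp_add]
      congr 2
      push_cast
      ring
    rw [h1, Complex.mul_im, Complex.exp_ofReal_mul_I_re, Complex.exp_ofReal_mul_I_im,
      Real.cos_neg, Real.sin_neg]
    ring
  have h1 : (∫ θ in (0 : ℝ)..(2 * π),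
      Real.sin (τ - θ) * (a θ * (exp (-((k * θ : ℝ) : ℂ) * I) * Ψ).im)) =
      ∫ θ in (0 : ℝ)..(2 * π), ((Real.cos (k * (θ - τ)) * (Real.sin (τ - θ) * a θ)) * W.im +
        (Real.sin (θ - τ) * (Real.sin (k * (θ - τ)) * a θ)) * W.re) := by
    apply intervalIntegral.integral_congr
    intro θ _
    simp only
    rw [hpt]
    have h2 : Real.sin (τ - θ) = - Real.sin (θ - τ) := by
      rw [← Real.sin_neg]
      congr 1
      ring
    rw [h2]
    ring
  rw [h1, intervalIntegral.integral_add, intervalIntegral.integral_mul_const,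
    intervalIntegral.integral_mul_const, hA, zero_mul, zero_add]
  · refine (intv _ ?_ C fun θ => ?_).mul_const _
    · fun_prop
    · exact bd _ _ _ _ (Real.abs_cos_le_one _) (Real.abs_sin_le_one _) (hC θ)
  · refine (intv _ ?_ C fun θ => ?_).mul_const _
    · fun_prop
    · exact bd _ _ _ _ (Real.abs_sin_le_one _) (Real.abs_sin_le_one _) (hC θ)

end Pool.Agent.N723.LB.SY
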